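import Mathlib
import Pool.Agent.R460.GH.Conv
import Pool.Agent.R460.GS.Conv

set_option autoImplicit false

/-! Functions with `g (k p) = A k * p + B k`: the exceptional primes for one `k`, and the sum over `k` (helper733). -/

namespace Pool.Agent.N733.AQ

open Finset Classical Filter

/-- few members of the classes `a mod q`, `q ≤ X ^ (θ - ρ)`, are exceptional -/
def EBT (θ : ℝ) (Good : ℕ → Prop) : Prop := ∀ ρ : ℝ, 0 < ρ → ∀ A T : ℕ, ∃ X₀ : ℝ, ∀ X : ℝ, X₀ ≤ X →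
  ∀ q : ℕ, 1 ≤ q → (q : ℝ) ≤ X ^ (θ - ρ) → ∀ a : ℤ, (Int.gcd a q : ℝ) ≤ Real.log X ^ T → ∀ V : Finset ℕ,
    (∀ v ∈ V, 0 < (q : ℤ) * v + a ∧ (((q : ℤ) * v + a : ℤ) : ℝ) ≤ X ∧ ¬ Good ((q : ℤ) * v + a).toNat) →
      (V.card : ℝ) ≤ X / (q * Real.log X ^ A)

lemma ebt_of (θ : ℝ) (Q : ℕ → Prop) (h : ∀ ρ : ℝ, 0 < ρ → ∀ A T : ℕ,
    ∃ x₀ : ℝ, ∀ x : ℝ, x₀ ≤ x → ∀ q : ℕ, 1 ≤ q → (q : ℝ) ≤ x ^ (θ - ρ) → ∀ a : ℤ,
      (Int.gcd a q : ℝ) ≤ Real.log x ^ T →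
        ({n : ℕ | 0 < n ∧ (n : ℝ) ≤ x ∧ 2 ∣ n ∧ (n : ℤ) ≡ a [ZMOD q] ∧ ¬ Q n}).Finite ∧
        (({n : ℕ | 0 < n ∧ (n : ℝ) ≤ x ∧ 2 ∣ n ∧ (n : ℤ) ≡ a [ZMOD q] ∧ ¬ Q n}.ncard : ℕ) : ℝ) ≤
          x / (q * Real.log x ^ A)) : EBT θ (fun n => 2 ∣ n → Q n) := by
  intro ρ hρ A T
  obtain ⟨x₀, hx₀⟩ := h ρ hρ A T
  refine ⟨x₀, fun X hX q hq hqX a ha V hV => ?_⟩
  obtain ⟨hfin, hcard⟩ := hx₀ X hX q hq hqX a ha
  refine le_trans ?_ hcard
  have h1 : (V.image (fun v : ℕ => ((q : ℤ) * v + a).toNat)).card = V.card := by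
    apply card_image_of_injOn
    intro v hv w hw h
    have e1 := (hV v hv).1
    have e2 := (hV w hw).1
    simp only at h
    have e3 : (q : ℤ) * v + a = (q : ℤ) * w + a := by omega
    have e4 : (q : ℤ) * v = (q : ℤ) * w := by linarith
    have e5 : (v : ℤ) = w := mul_left_cancel₀ (by exact_mod_cast (by omega : q ≠ 0)) e4
    exact_mod_cast e5
  rw [← h1, ← Set.ncard_coe_finset]
  have h2 : ((V.image (fun v : ℕ => ((q : ℤ) * v + a).toNat)) : Set ℕ).ncard ≤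
      ({n : ℕ | 0 < n ∧ (n : ℝ) ≤ X ∧ 2 ∣ n ∧ (n : ℤ) ≡ a [ZMOD q] ∧ ¬ Q n}).ncard := by
    apply Set.ncard_le_ncard _ hfin
    intro n hn
    rw [mem_coe, mem_image] at hn
    obtain ⟨v, hv, rfl⟩ := hn
    obtain ⟨e1, e2, e3⟩ := hV v hv
    have e4 : ((((q : ℤ) * v + a).toNat : ℕ) : ℤ) = (q : ℤ) * v + a := Int.toNat_of_nonneg e1.le
    push Not at e3
    refine ⟨by omega, ?_, e3.1, ?_, e3.2⟩
    · have e5 : ((((q : ℤ) * v + a).toNat : ℕ) : ℝ) = (((q : ℤ) * v + a : ℤ) : ℝ) := by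
        rw [← Int.cast_natCast, e4]
      rw [e5]
      exact e2
    · rw [e4, Int.modEq_iff_dvd]
      exact ⟨-(v : ℤ), by ring⟩
  exact_mod_cast h2

/-- the asymptotic formula -/
theorem ebt_asymp (Q : ℕ → Prop) (ε : ℝ) (hε : 0 < ε) (W : ℕ)
    (hQ : ∃ n₀ : ℕ, ∀ n : ℕ, n₀ ≤ n → 2 ∣ n → Pool.Agent.W93.PG.WinP ε W n → Q n) :
    EBT (2 / 3) (fun n => 2 ∣ n → Q n) :=
  ebt_of _ Q (fun ρ hρ A T => Pool.Agent.R460.GH.class_asymp Q ε hε W hQ ρ hρ A T)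

/-- the lower bound -/
theorem ebt_lower (Q : ℕ → Prop) (W : ℕ)
    (hQ : ∃ n₀ : ℕ, ∀ n : ℕ, n₀ ≤ n → 2 ∣ n → Pool.Agent.R460.GS.WinL W n → Q n) :
    EBT (7 / 10) (fun n => 2 ∣ n → Q n) :=
  ebt_of _ Q (fun ρ hρ A T => Pool.Agent.R460.GS.class_few Q W hQ ρ hρ A T)

/-- the conditions on `k` -/
def KOK (C : ℕ) (x : ℝ) (k : ℕ) (a b : ℤ) : Prop :=
  (k : ℝ) / Real.log x ^ C ≤ a ∧ (a : ℝ) ≤ k * Real.log x ^ C ∧ |(b : ℝ)| ≤ k * Real.log x ^ C ∧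
    (Int.gcd b a : ℝ) ≤ Real.log x ^ C

theorem perk (θ : ℝ) (hθ0 : 0 < θ) (hθ1 : θ < 1) (Good : ℕ → Prop) (hE : EBT θ Good) (ρ : ℝ) (hρ : 0 < ρ) (hρθ : ρ ≤ θ)
    (C E : ℕ) :
    ∃ x₀ : ℝ, 1 ≤ x₀ ∧ ∀ x : ℝ, x₀ ≤ x → ∀ k : ℕ, 1 ≤ k → (k : ℝ) ≤ x ^ (θ - ρ) → ∀ a b : ℤ, KOK C x k a b →
      ∀ V : Finset ℕ, (∀ v ∈ V, (v : ℝ) ≤ x / k ∧ x ^ (1 - θ) ≤ v ∧
        ¬ (0 < a * v + b ∧ Good (a * v + b).toNat)) → (V.card : ℝ) ≤ x / k / Real.log x ^ E := by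
  obtain ⟨δ, hδ⟩ : ∃ δ : ℝ, δ = min (ρ / 4) ((1 - θ) / 4) := ⟨_, rfl⟩
  have hδ0 : 0 < δ := by rw [hδ]; exact lt_min (by linarith) (by linarith)
  have hδρ : δ ≤ ρ / 4 := by rw [hδ]; exact min_le_left _ _
  have hδθ : δ ≤ (1 - θ) / 4 := by rw [hδ]; exact min_le_right _ _
  obtain ⟨X₀, hX₀⟩ := hE (ρ / 2) (by linarith) (E + 1) (C + 1)
  obtain ⟨x1, hx1⟩ := eventually_atTop.1 (Pool.Agent.R460.GS.real_log (C + 1) hδ0 (2 ^ (E + 2) + 2 ^ (C + 1) + 2 + |X₀|))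
  refine ⟨max x1 1, le_max_right _ _, fun x hx k hk hkx a b hab V hV => ?_⟩
  obtain ⟨hL, hLp⟩ := hx1 x (le_trans (le_max_left _ _) hx)
  have hx1' : 1 ≤ x := le_trans (le_max_right _ _) hx
  have hx0 : 0 < x := by linarith
  obtain ⟨L, hLd⟩ : ∃ L, L = Real.log x := ⟨_, rfl⟩
  obtain ⟨h1, h2, h3, h4⟩ := hab
  rw [← hLd] at hL hLp h1 h2 h3 h4 ⊢
  have p1 : (0 : ℝ) < 2 ^ (E + 2) := by positivity
  have p2 : (0 : ℝ) < 2 ^ (C + 1) := by positivity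
  have p3 : 0 ≤ |X₀| := abs_nonneg _
  have hL2 : 2 ≤ L := by linarith
  have hL0 : 0 < L := by linarith
  have hL1 : 1 ≤ L := by linarith
  have hLE : (2 : ℝ) ^ (E + 2) ≤ L := by linarith
  have hLC : (2 : ℝ) ^ (C + 1) ≤ L := by linarith
  have hLX : |X₀| ≤ L := by linarith
  have hk0 : (0 : ℝ) < k := by exact_mod_cast hk
  -- the small power
  obtain ⟨u, hu⟩ : ∃ u : ℝ, u = x ^ δ := ⟨_, rfl⟩
  rw [← hu] at hLp
  have hu0 : 0 < u := by rw [hu]; positivity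
  have hLCp : 0 < L ^ C := by positivity
  have hu1 : 1 ≤ u := le_trans (one_le_pow₀ hL1) hLp
  have hLCu : L ^ C * 2 ≤ u := by
    calc L ^ C * 2 ≤ L ^ C * L := mul_le_mul_of_nonneg_left hL2 hLCp.le
      _ = L ^ (C + 1) := by ring
      _ ≤ u := hLp
  have hLCu' : L ^ C ≤ u := by linarith
  -- a as a natural number
  have ha0r : (0 : ℝ) < a := lt_of_lt_of_le (by positivity) h1
  have ha0 : 0 < a := by exact_mod_cast ha0r
  obtain ⟨q, hq⟩ : ∃ q : ℕ, (q : ℤ) = a := ⟨a.toNat, Int.toNat_of_nonneg ha0.le⟩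
  have hqr : (q : ℝ) = a := by exact_mod_cast hq
  have hq1 : 1 ≤ q := by omega
  have hq0 : (0 : ℝ) < q := by exact_mod_cast hq1
  obtain ⟨X, hX⟩ : ∃ X : ℝ, X = 2 * (q * (x / k)) := ⟨_, rfl⟩
  have hXlo : 2 * (x / L ^ C) ≤ X := by
    rw [hX, hqr]
    apply mul_le_mul_of_nonneg_left _ (by norm_num)
    calc x / L ^ C = (k : ℝ) / L ^ C * (x / k) := by field_simp
      _ ≤ a * (x / k) := mul_le_mul_of_nonneg_right h1 (by positivity)
  have hxu : x / u ≤ X := by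
    have : x / u ≤ x / L ^ C := div_le_div_of_nonneg_left hx0.le hLCp hLCu'
    have : 0 ≤ x / L ^ C := by positivity
    linarith
  have hxδ : x / u = x ^ (1 - δ) := by rw [hu, Real.rpow_sub hx0, Real.rpow_one]
  have hX0 : 0 < X := lt_of_lt_of_le (by positivity) hxu
  have hXup : X ≤ x ^ 2 := by
    rw [hX, hqr]
    have e1 : (a : ℝ) * (x / k) ≤ (k * L ^ C) * (x / k) := mul_le_mul_of_nonneg_right h2 (by positivity)
    have e2 : ((k : ℝ) * L ^ C) * (x / k) = L ^ C * x := by field_simp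
    have e3 : u ≤ x := by
      rw [hu]
      calc x ^ δ ≤ x ^ (1 : ℝ) := Real.rpow_le_rpow_of_exponent_le hx1' (by linarith)
        _ = x := Real.rpow_one x
    calc 2 * ((a : ℝ) * (x / k)) ≤ (L ^ C * 2) * x := by linarith
      _ ≤ u * x := mul_le_mul_of_nonneg_right hLCu hx0.le
      _ ≤ x * x := mul_le_mul_of_nonneg_right e3 hx0.le
      _ = x ^ 2 := by ring
  have hlogX1 : L / 2 ≤ Real.log X := by
    have e1 : Real.log (x ^ (1 - δ)) ≤ Real.log X := Real.log_le_log (by positivity) (by rw [← hxδ]; exact hxu)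
    rw [Real.log_rpow hx0, ← hLd] at e1
    nlinarith
  have hlogX2 : Real.log X ≤ 2 * L := by
    have e1 : Real.log X ≤ Real.log (x ^ 2) := Real.log_le_log hX0 hXup
    rw [Real.log_pow, ← hLd] at e1
    push_cast at e1
    exact e1
  have hXX : X₀ ≤ X := by
    have e1 : L ≤ u := by
      calc L = L ^ 1 := (pow_one L).symm
        _ ≤ L ^ (C + 1) := pow_le_pow_right₀ hL1 (by omega)
        _ ≤ u := hLp
    have e2 : u ≤ x / u := by
      rw [hxδ, hu]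
      exact Real.rpow_le_rpow_of_exponent_le hx1' (by linarith)
    linarith [le_abs_self X₀]
  -- the size of the modulus
  have hqX : (q : ℝ) ≤ X ^ (θ - ρ / 2) := by
    have e0 : 0 ≤ θ - ρ / 2 := by linarith
    have e1 : (q : ℝ) ≤ x ^ (θ - ρ) * u := by
      rw [hqr]
      calc (a : ℝ) ≤ k * L ^ C := h2
        _ ≤ x ^ (θ - ρ) * u := mul_le_mul hkx hLCu' hLCp.le (by positivity)
    have e2 : x ^ (θ - ρ) * u ≤ (x ^ (1 - δ)) ^ (θ - ρ / 2) := by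
      rw [hu, ← Real.rpow_add hx0, ← Real.rpow_mul hx0.le]
      apply Real.rpow_le_rpow_of_exponent_le hx1'
      nlinarith
    calc (q : ℝ) ≤ x ^ (θ - ρ) * u := e1
      _ ≤ (x ^ (1 - δ)) ^ (θ - ρ / 2) := e2
      _ ≤ X ^ (θ - ρ / 2) := Real.rpow_le_rpow (by positivity) (by rw [← hxδ]; exact hxu) e0
  have hgcd : (Int.gcd b q : ℝ) ≤ Real.log X ^ (C + 1) := by
    rw [hq]
    refine h4.trans ?_
    have e1 : (L / 2) ^ (C + 1) ≤ Real.log X ^ (C + 1) := pow_le_pow_left₀ (by positivity) hlogX1 _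
    refine le_trans ?_ e1
    rw [div_pow, le_div_iff₀ (by positivity)]
    calc L ^ C * 2 ^ (C + 1) ≤ L ^ C * L := mul_le_mul_of_nonneg_left hLC hLCp.le
      _ = L ^ (C + 1) := by ring
  -- the bound for b
  have hkL : (k : ℝ) * L ^ C ≤ x ^ (θ - ρ) * u := mul_le_mul hkx hLCu' hLCp.le (by positivity)
  have hbig : x ^ (θ - ρ) * u * (2 * u) ≤ x := by
    have e2 : 2 ≤ u := by
      have : 1 ≤ L ^ C := one_le_pow₀ hL1
      linarith
    calc x ^ (θ - ρ) * u * (2 * u) ≤ x ^ (θ - ρ) * u * (u * u) := by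
          apply mul_le_mul_of_nonneg_left _ (by positivity)
          exact mul_le_mul_of_nonneg_right e2 hu0.le
      _ = x ^ ((θ - ρ) + δ + δ + δ) := by
          rw [hu, Real.rpow_add hx0, Real.rpow_add hx0, Real.rpow_add hx0]
          ring
      _ ≤ x ^ (1 : ℝ) := Real.rpow_le_rpow_of_exponent_le hx1' (by linarith)
      _ = x := Real.rpow_one x
  have hbX : |(b : ℝ)| ≤ X / 2 := by
    calc |(b : ℝ)| ≤ k * L ^ C := h3
      _ ≤ x ^ (θ - ρ) * u := hkL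
      _ ≤ x / u := by
          rw [le_div_iff₀ hu0]
          have : 0 ≤ x ^ (θ - ρ) * u * u := by positivity
          nlinarith
      _ ≤ x / L ^ C := div_le_div_of_nonneg_left hx0.le hLCp hLCu'
      _ ≤ X / 2 := by linarith
  have hbv : ∀ v : ℝ, x ^ (1 - θ) ≤ v → |(b : ℝ)| < a * v := by
    intro v hv
    have e1 : (k : ℝ) * L ^ C * L ^ C < k * x ^ (1 - θ) := by
      have e2 : L ^ C * L ^ C < x ^ (1 - θ) := by
        calc L ^ C * L ^ C < u * u := by nlinarith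
          _ = x ^ (δ + δ) := by rw [hu, Real.rpow_add hx0]
          _ ≤ x ^ (1 - θ) := Real.rpow_le_rpow_of_exponent_le hx1' (by linarith)
      rw [mul_assoc]
      exact mul_lt_mul_of_pos_left e2 hk0
    have hvx : 0 < x ^ (1 - θ) := by positivity
    calc |(b : ℝ)| ≤ k * L ^ C := h3
      _ < k / L ^ C * x ^ (1 - θ) := by
          rw [div_mul_eq_mul_div, lt_div_iff₀ hLCp]
          exact e1
      _ ≤ a * v := mul_le_mul h1 hv hvx.le ha0r.le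
  have hfin := hX₀ X hXX q hq1 hqX b hgcd V (by
    intro v hv
    obtain ⟨g1, g2, g3⟩ := hV v hv
    have g4 := hbv v g2
    have g5 : (0 : ℝ) < a * v + b := by
      have := neg_abs_le (b : ℝ)
      linarith
    have g6 : 0 < a * v + b := by exact_mod_cast g5
    rw [hq]
    refine ⟨g6, ?_, fun hg => g3 ⟨g6, hg⟩⟩
    push_cast
    have g7 : (a : ℝ) * v ≤ q * (x / k) := by
      rw [hqr]
      exact mul_le_mul_of_nonneg_left g1 ha0r.le
    have g8 : q * (x / k) = X / 2 := by rw [hX]; ring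
    have := le_abs_self (b : ℝ)
    linarith)
  refine hfin.trans ?_
  have e1 : (L / 2) ^ (E + 1) ≤ Real.log X ^ (E + 1) := pow_le_pow_left₀ (by positivity) hlogX1 _
  calc X / (q * Real.log X ^ (E + 1)) ≤ X / (q * (L / 2) ^ (E + 1)) := by
        apply div_le_div_of_nonneg_left hX0.le (by positivity)
        exact mul_le_mul_of_nonneg_left e1 hq0.le
    _ = x / k * (2 ^ (E + 2) / L ^ (E + 1)) := by
        rw [hX, div_pow]
        field_simp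
        ring
    _ ≤ x / k * (L / L ^ (E + 1)) := by
        apply mul_le_mul_of_nonneg_left _ (by positivity)
        exact div_le_div_of_nonneg_right hLE (by positivity)
    _ = x / k / L ^ E := by
        rw [pow_succ]
        field_simp

end Pool.Agent.N733.AQ
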