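import Mathlib
import Pool.Agent.N733.AQ.A

set_option autoImplicit false

/-! The sum over `k` of the numbers of the exceptional primes (helper733). -/

namespace Pool.Agent.N733.AQ

open Finset Classical Filter

/-- the integers `m = k p` with a large prime factor `p` and a good `k` -/
def Adm (θ ρ : ℝ) (C : ℕ) (A B : ℕ → ℤ) (x : ℝ) (m : ℕ) : Prop :=
  ∃ k p : ℕ, m = k * p ∧ 1 ≤ k ∧ p.Prime ∧ ¬ p ∣ k ∧ (k : ℝ) ≤ x ^ (θ - ρ) ∧ x ^ (1 - θ) ≤ p ∧ KOK C x k (A k) (B k)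

theorem count (θ : ℝ) (hθ0 : 0 < θ) (hθ1 : θ < 1) (Good : ℕ → Prop) (hE : EBT θ Good) (ρ : ℝ) (hρ : 0 < ρ) (hρθ : ρ ≤ θ)
    (C E : ℕ) (g : ℕ → ℤ) (A B : ℕ → ℤ) (p₀ : ℕ)
    (hg : ∀ k p : ℕ, 1 ≤ k → p.Prime → p₀ ≤ p → ¬ p ∣ k → g (k * p) = A k * p + B k) :
    ∃ x₀ : ℕ, ∀ x : ℕ, x₀ ≤ x →
      (((Icc 1 x).filter (fun m => Adm θ ρ C A B x m ∧ ¬ (0 < g m ∧ Good (g m).toNat))).card : ℝ) ≤
        x / Real.log x ^ E := by
  obtain ⟨x1, hx11, hx1⟩ := perk θ hθ0 hθ1 Good hE ρ hρ hρθ C (E + 2)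
  obtain ⟨x2, hx2⟩ := eventually_atTop.1 (Pool.Agent.R460.GS.real_log 1 (s := (1 - θ) / 2) (by linarith) 2)
  have ht := ((tendsto_rpow_atTop (show 0 < 1 - θ by linarith)).comp
    (tendsto_natCast_atTop_atTop (R := ℝ))).eventually_ge_atTop (p₀ : ℝ)
  obtain ⟨x3, hx3⟩ := eventually_atTop.1 ht
  obtain ⟨n1, hn1⟩ := exists_nat_ge x1
  obtain ⟨n2, hn2⟩ := exists_nat_ge x2
  refine ⟨n1 + n2 + x3 + 1, fun x hx => ?_⟩
  have hxr1 : x1 ≤ (x : ℝ) := hn1.trans (by exact_mod_cast (by omega : n1 ≤ x))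
  have hxr2 : x2 ≤ (x : ℝ) := hn2.trans (by exact_mod_cast (by omega : n2 ≤ x))
  have hp₀ : (p₀ : ℝ) ≤ (x : ℝ) ^ (1 - θ) := hx3 x (by omega)
  obtain ⟨hL2, -⟩ := hx2 x hxr2
  have hx1' : 1 ≤ x := by omega
  have hxr : (1 : ℝ) ≤ x := by exact_mod_cast hx1'
  obtain ⟨L, hL⟩ : ∃ L, L = Real.log x := ⟨_, rfl⟩
  rw [← hL] at hL2 ⊢
  have hL0 : 0 < L := by linarith
  -- the sets for one k
  obtain ⟨V, hV⟩ : ∃ V : ℕ → Finset ℕ, V = fun k => (Icc 1 (x / k)).filter (fun v : ℕ =>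
    (k : ℝ) ≤ (x : ℝ) ^ (θ - ρ) ∧ KOK C x k (A k) (B k) ∧ (x : ℝ) ^ (1 - θ) ≤ v ∧
      ¬ (0 < A k * v + B k ∧ Good (A k * v + B k).toNat)) := ⟨_, rfl⟩
  have hsub : (Icc 1 x).filter (fun m => Adm θ ρ C A B x m ∧ ¬ (0 < g m ∧ Good (g m).toNat)) ⊆
      (Icc 1 x).biUnion (fun k => (V k).image (fun v => k * v)) := by
    intro m hm
    rw [mem_filter, mem_Icc] at hm
    obtain ⟨⟨hm1, hm2⟩, ⟨k, p, hkp, hk, hp, hpk, h1, h2, h3⟩, h4⟩ := hm
    have hpos : 0 < p := hp.pos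
    have hkx : k ≤ x := by
      calc k = k * 1 := (mul_one k).symm
        _ ≤ k * p := Nat.mul_le_mul_left k hpos
        _ = m := hkp.symm
        _ ≤ x := hm2
    rw [mem_biUnion]
    refine ⟨k, by rw [mem_Icc]; exact ⟨hk, hkx⟩, ?_⟩
    rw [mem_image]
    refine ⟨p, ?_, hkp.symm⟩
    have hpp : p₀ ≤ p := by exact_mod_cast hp₀.trans h2
    rw [hV, mem_filter, mem_Icc]
    refine ⟨⟨hpos, ?_⟩, h1, h3, h2, ?_⟩
    · rw [Nat.le_div_iff_mul_le (by omega), mul_comm, ← hkp]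
      exact hm2
    · rw [← hg k p hk hp hpp hpk, ← hkp]
      exact h4
  have hVk : ∀ k ∈ Icc 1 x, ((V k).card : ℝ) ≤ x / k / L ^ (E + 2) := by
    intro k hk
    rw [mem_Icc] at hk
    by_cases hc : (k : ℝ) ≤ (x : ℝ) ^ (θ - ρ) ∧ KOK C x k (A k) (B k)
    · have h1 := hx1 x hxr1 k hk.1 hc.1 (A k) (B k) hc.2 (V k) (by
        intro v hv
        rw [hV, mem_filter, mem_Icc] at hv
        refine ⟨?_, hv.2.2.2.1, hv.2.2.2.2⟩
        calc (v : ℝ) ≤ ((x / k : ℕ) : ℝ) := by exact_mod_cast hv.1.2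
          _ ≤ x / k := Nat.cast_div_le)
      rw [← hL] at h1
      exact h1
    · have h1 : V k = ∅ := by
        rw [hV]
        apply filter_eq_empty_iff.2
        intro v _ hcon
        exact hc ⟨hcon.1, hcon.2.1⟩
      rw [h1, card_empty, Nat.cast_zero]
      positivity
  have h1 : (((Icc 1 x).filter (fun m => Adm θ ρ C A B x m ∧ ¬ (0 < g m ∧ Good (g m).toNat))).card : ℝ) ≤
      ∑ k ∈ Icc 1 x, (x / k / L ^ (E + 2) : ℝ) := by
    calc (((Icc 1 x).filter (fun m => Adm θ ρ C A B x m ∧ ¬ (0 < g m ∧ Good (g m).toNat))).card : ℝ) ≤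
        (∑ k ∈ Icc 1 x, (V k).card : ℕ) := by
          rw [Nat.cast_le]
          refine (card_le_card hsub).trans (card_biUnion_le.trans ?_)
          apply sum_le_sum
          intro k _
          exact card_image_le
      _ = ∑ k ∈ Icc 1 x, ((V k).card : ℝ) := by push_cast; rfl
      _ ≤ _ := sum_le_sum hVk
  refine h1.trans ?_
  have h2 : ∑ k ∈ Icc 1 x, (x / k / L ^ (E + 2) : ℝ) = x / L ^ (E + 2) * ∑ k ∈ Icc 1 x, (1 / k : ℝ) := by
    rw [mul_sum]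
    apply sum_congr rfl
    intro k _
    ring
  have h3 : ∑ k ∈ Icc 1 x, (1 / k : ℝ) ≤ 1 + L := by
    have := harmonic_le_one_add_log x
    unfold harmonic at this
    rw [hL]
    refine le_trans (le_of_eq ?_) this
    push_cast
    rw [show Icc 1 x = Ico 1 (x + 1) by
      ext t
      rw [mem_Icc, mem_Ico]
      omega, Finset.sum_Ico_eq_sum_range]
    apply sum_congr rfl
    intro i _
    push_cast
    rw [one_div, add_comm]
  rw [h2]
  calc x / L ^ (E + 2) * ∑ k ∈ Icc 1 x, (1 / k : ℝ) ≤ x / L ^ (E + 2) * (1 + L) :=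
        mul_le_mul_of_nonneg_left h3 (by positivity)
    _ ≤ x / L ^ (E + 2) * (L ^ 2) := by
        apply mul_le_mul_of_nonneg_left _ (by positivity)
        nlinarith
    _ = x / L ^ E := by
        rw [pow_add]
        field_simp

end Pool.Agent.N733.AQ
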