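import Mathlib
import Pool.Agent.N733.TG.B
import Pool.Agent.R460.GS.Conv

set_option autoImplicit false

/-! The greatest common divisor of `k` and `f k` is rarely large (helper733). -/

namespace Pool.Agent.N733.AQ

open Finset Classical Filter Pool.Agent.N733.TG

/-- few integers are divisible by the square of an integer `> s` -/
lemma few_sq (N s : ℕ) (hs : 1 ≤ s) :
    (((Icc 1 N).filter (fun m => ∃ t : ℕ, s < t ∧ t ^ 2 ∣ m)).card : ℝ) ≤ N / s := by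
  have h1 : (Icc 1 N).filter (fun m => ∃ t : ℕ, s < t ∧ t ^ 2 ∣ m) ⊆
      (Ioc s (N + s)).biUnion (fun t => (Icc 1 N).filter (fun m => t ^ 2 ∣ m)) := by
    intro m hm
    rw [mem_filter, mem_Icc] at hm
    obtain ⟨⟨h1, h2⟩, t, hst, hd⟩ := hm
    rw [mem_biUnion]
    refine ⟨t, ?_, ?_⟩
    · rw [mem_Ioc]
      have := Nat.le_of_dvd (by omega) hd
      have : t ≤ t ^ 2 := Nat.le_self_pow (by norm_num) t
      omega
    · rw [mem_filter, mem_Icc]
      exact ⟨⟨h1, h2⟩, hd⟩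
  have h2 : ∀ t ∈ Ioc s (N + s), (((Icc 1 N).filter (fun m => t ^ 2 ∣ m)).card : ℝ) ≤ N * ((t : ℝ) ^ 2)⁻¹ := by
    intro t ht
    have hc : ((Icc 1 N).filter (fun m => t ^ 2 ∣ m)).card = N / t ^ 2 := by
      have := Nat.Ioc_filter_dvd_card_eq_div N (t ^ 2)
      rw [← this]
      rfl
    rw [hc, ← div_eq_mul_inv]
    refine (Nat.cast_div_le (α := ℝ)).trans ?_
    rw [Nat.cast_pow]
  have h3 := sum_Ioc_inv_sq_le_sub (α := ℝ) (show s ≠ 0 by omega) (show s ≤ N + s by omega)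
  calc (((Icc 1 N).filter (fun m => ∃ t : ℕ, s < t ∧ t ^ 2 ∣ m)).card : ℝ) ≤
      ∑ t ∈ Ioc s (N + s), (((Icc 1 N).filter (fun m => t ^ 2 ∣ m)).card : ℝ) := by
        exact_mod_cast (card_le_card h1).trans card_biUnion_le
    _ ≤ ∑ t ∈ Ioc s (N + s), N * ((t : ℝ) ^ 2)⁻¹ := sum_le_sum h2
    _ = N * ∑ t ∈ Ioc s (N + s), ((t : ℝ) ^ 2)⁻¹ := by rw [mul_sum]
    _ ≤ N * (s : ℝ)⁻¹ := by
        apply mul_le_mul_of_nonneg_left _ (Nat.cast_nonneg _)
        have : (0 : ℝ) ≤ ((N + s : ℕ) : ℝ)⁻¹ := by positivity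
        linarith
    _ = N / s := by rw [div_eq_mul_inv]

lemma harm (n : ℕ) : ∑ k ∈ Icc 1 n, (1 / k : ℝ) ≤ 1 + Real.log n := by
  have := harmonic_le_one_add_log n
  unfold harmonic at this
  refine le_trans (le_of_eq ?_) this
  push_cast
  rw [show Icc 1 n = Ico 1 (n + 1) by
    ext t
    rw [mem_Icc, mem_Ico]
    omega, Finset.sum_Ico_eq_sum_range]
  apply sum_congr rfl
  intro i _
  push_cast
  rw [one_div, add_comm]

/-- few integers are divisible by `r p` with `r > y` and `r ∣ p + c` -/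
lemma few_rp (N y : ℕ) (c : ℤ) (hy : 2 * c.natAbs + 1 ≤ y) :
    (((Icc 1 N).filter (fun m => ∃ r p : ℕ, y < r ∧ 0 < (p : ℤ) + c ∧ (r : ℤ) ∣ p + c ∧ r * p ∣ m)).card : ℝ) ≤
      2 * N * (1 + Real.log (2 * N)) / y := by
  obtain ⟨w, hw⟩ : ∃ w : ℕ → ℕ → ℕ, w = fun r j : ℕ => ((j : ℤ) * r - c).toNat := ⟨_, rfl⟩
  have hwr : ∀ r j : ℕ, y < r → 1 ≤ j → ((j * r : ℕ) : ℝ) / 2 ≤ w r j ∧ ((w r j : ℕ) : ℤ) = (j : ℤ) * r - c := by
    intro r j hr hj
    have h1 : (r : ℤ) ≤ (j : ℤ) * r := by nlinarith [show (0 : ℤ) ≤ r by positivity, show (1 : ℤ) ≤ j by exact_mod_cast hj]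
    have h2 : c ≤ c.natAbs := Int.le_natAbs
    have h3 : (2 * c.natAbs + 1 : ℤ) ≤ r := by
      have : 2 * c.natAbs + 1 ≤ r := by omega
      exact_mod_cast this
    have h4 : ((w r j : ℕ) : ℤ) = (j : ℤ) * r - c := by
      rw [hw]
      exact Int.toNat_of_nonneg (by linarith [Int.natCast_nonneg c.natAbs])
    refine ⟨?_, h4⟩
    have h5 : ((w r j : ℕ) : ℝ) = (j : ℝ) * r - c := by exact_mod_cast h4
    rw [h5]
    push_cast
    have h6 : (2 : ℝ) * c ≤ (j : ℝ) * r := by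
      have : (2 : ℤ) * c ≤ (j : ℤ) * r := by linarith
      exact_mod_cast this
    linarith
  have h1 : (Icc 1 N).filter (fun m => ∃ r p : ℕ, y < r ∧ 0 < (p : ℤ) + c ∧ (r : ℤ) ∣ p + c ∧ r * p ∣ m) ⊆
      (Ioc y (N + y) ×ˢ Icc 1 (2 * N)).biUnion (fun z => (Icc 1 N).filter (fun m => z.1 * w z.1 z.2 ∣ m)) := by
    intro m hm
    rw [mem_filter, mem_Icc] at hm
    obtain ⟨⟨h1, h2⟩, r, p, hr, hp, ⟨j, hj⟩, hd⟩ := hm
    have hr0 : 0 < r := by omega
    have hm0 : 0 < m := by omega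
    have hrp := Nat.le_of_dvd hm0 hd
    have hp0 : 0 < p := by
      rcases Nat.eq_zero_or_pos p with h0 | h0
      · rw [h0, mul_zero, zero_dvd_iff] at hd
        omega
      · exact h0
    have hj0 : 0 < j := by
      by_contra hc
      push Not at hc
      have : (r : ℤ) * j ≤ 0 := mul_nonpos_of_nonneg_of_nonpos (by positivity) hc
      linarith
    obtain ⟨i, rfl⟩ : ∃ i : ℕ, (i : ℤ) = j := ⟨j.toNat, Int.toNat_of_nonneg hj0.le⟩
    have hi0 : 0 < i := by exact_mod_cast hj0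
    have hrN : r ≤ N := by
      calc r = r * 1 := (mul_one r).symm
        _ ≤ r * p := Nat.mul_le_mul_left r hp0
        _ ≤ N := hrp.trans h2
    have hpN : p ≤ N := by
      calc p = 1 * p := (one_mul p).symm
        _ ≤ r * p := Nat.mul_le_mul_right p hr0
        _ ≤ N := hrp.trans h2
    have hwp : w r i = p := by
      have h5 := (hwr r i hr hi0).2
      have : ((w r i : ℕ) : ℤ) = (p : ℤ) := by
        rw [h5]
        linarith [mul_comm (r : ℤ) i]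
      exact_mod_cast this
    have hi2 : i ≤ 2 * N := by
      have h6 : (i : ℤ) ≤ r * i := by nlinarith [show (1 : ℤ) ≤ r by exact_mod_cast hr0, show (0 : ℤ) ≤ i by positivity]
      have h7 : c ≤ c.natAbs := Int.le_natAbs
      have h8 : (c.natAbs : ℤ) ≤ r := by
        have : c.natAbs ≤ r := by omega
        exact_mod_cast this
      have h9 : (p : ℤ) ≤ N := by exact_mod_cast hpN
      have h10 : (r : ℤ) ≤ N := by exact_mod_cast hrN
      have : (i : ℤ) ≤ 2 * N := by linarith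
      exact_mod_cast this
    rw [mem_biUnion]
    refine ⟨(r, i), ?_, ?_⟩
    · rw [mem_product, mem_Ioc, mem_Icc]
      exact ⟨⟨hr, by simp only; omega⟩, hi0, hi2⟩
    · rw [mem_filter, mem_Icc]
      refine ⟨⟨h1, h2⟩, ?_⟩
      simp only
      rw [hwp]
      exact hd
  have h2 : ∀ z ∈ Ioc y (N + y) ×ˢ Icc 1 (2 * N), (((Icc 1 N).filter (fun m => z.1 * w z.1 z.2 ∣ m)).card : ℝ) ≤
      2 * N * (((z.1 : ℝ) ^ 2)⁻¹ * (1 / z.2)) := by
    intro z hz
    rw [mem_product, mem_Ioc, mem_Icc] at hz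
    obtain ⟨g1, g2⟩ := hwr z.1 z.2 hz.1.1 hz.2.1
    have hc : ((Icc 1 N).filter (fun m => z.1 * w z.1 z.2 ∣ m)).card = N / (z.1 * w z.1 z.2) := by
      have := Nat.Ioc_filter_dvd_card_eq_div N (z.1 * w z.1 z.2)
      rw [← this]
      rfl
    rw [hc]
    refine (Nat.cast_div_le (α := ℝ)).trans ?_
    have hz1 : (0 : ℝ) < z.1 := by exact_mod_cast (by omega : 0 < z.1)
    have hz2 : (0 : ℝ) < z.2 := by exact_mod_cast (by omega : 0 < z.2)
    push_cast at g1 ⊢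
    calc (N : ℝ) / (z.1 * w z.1 z.2) ≤ N / (z.1 * (z.2 * z.1 / 2)) := by
          apply div_le_div_of_nonneg_left (Nat.cast_nonneg _) (by positivity)
          exact mul_le_mul_of_nonneg_left g1 hz1.le
      _ = 2 * N * (((z.1 : ℝ) ^ 2)⁻¹ * (1 / z.2)) := by
          field_simp
  have h3 := sum_Ioc_inv_sq_le_sub (α := ℝ) (show y ≠ 0 by omega) (show y ≤ N + y by omega)
  have h4 : ∑ r ∈ Ioc y (N + y), ((r : ℝ) ^ 2)⁻¹ ≤ (y : ℝ)⁻¹ := by
    have : (0 : ℝ) ≤ ((N + y : ℕ) : ℝ)⁻¹ := by positivity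
    linarith
  have h5 := harm (2 * N)
  have h0 : 0 ≤ ∑ j ∈ Icc 1 (2 * N), (1 / j : ℝ) := sum_nonneg fun _ _ => by positivity
  calc (((Icc 1 N).filter (fun m => ∃ r p : ℕ, y < r ∧ 0 < (p : ℤ) + c ∧ (r : ℤ) ∣ p + c ∧ r * p ∣ m)).card : ℝ) ≤
      ∑ z ∈ Ioc y (N + y) ×ˢ Icc 1 (2 * N), (((Icc 1 N).filter (fun m => z.1 * w z.1 z.2 ∣ m)).card : ℝ) := by
        exact_mod_cast (card_le_card h1).trans card_biUnion_le
    _ ≤ ∑ z ∈ Ioc y (N + y) ×ˢ Icc 1 (2 * N), 2 * N * (((z.1 : ℝ) ^ 2)⁻¹ * (1 / z.2)) := sum_le_sum h2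
    _ = 2 * N * ((∑ r ∈ Ioc y (N + y), ((r : ℝ) ^ 2)⁻¹) * ∑ j ∈ Icc 1 (2 * N), (1 / j : ℝ)) := by
        rw [← mul_sum, sum_mul_sum, sum_product]
    _ ≤ 2 * N * ((y : ℝ)⁻¹ * (1 + Real.log ((2 * N : ℕ) : ℝ))) := by
        apply mul_le_mul_of_nonneg_left _ (by positivity)
        exact mul_le_mul h4 h5 h0 (by positivity)
    _ = 2 * N * (1 + Real.log (2 * N)) / y := by
        push_cast
        rw [div_eq_mul_inv]
        ring

/-- the structure of the exceptional integers -/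
lemma gcd_le {f : ℕ → ℕ} {c : ℤ} (hf : SM f c) (hc : c ≠ 0) {P K D : ℕ}
    (hP : ∀ p : ℕ, P ≤ p → p.Prime → (f p : ℤ) = p + c) (hK : ∀ m : ℕ, 1 ≤ m → f m ≤ K * m ^ D)
    {y s m k : ℕ} (hy : 2 * c.natAbs + 1 ≤ y) (hyP : K * P ^ D ≤ y) (hys : K * (s ^ 3) ^ D ≤ y) (hk : 1 ≤ k) (hkm : k ∣ m)
    (hm : m ≠ 0) (h1 : ¬ ∃ t : ℕ, s < t ∧ t ^ 2 ∣ m)
    (h2 : ¬ ∃ r p : ℕ, y < r ∧ 0 < (p : ℤ) + c ∧ (r : ℤ) ∣ p + c ∧ r * p ∣ m) :
    Nat.gcd k (f k) ≤ sp y m := by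
  obtain ⟨G, hG⟩ : ∃ G, G = Nat.gcd k (f k) := ⟨_, rfl⟩
  have hGk : G ∣ k := by rw [hG]; exact Nat.gcd_dvd_left _ _
  have hGf : G ∣ f k := by rw [hG]; exact Nat.gcd_dvd_right _ _
  have hsm : ∀ r : ℕ, r.Prime → r ∣ G → r ≤ y := by
    intro r hr hrG
    by_contra hry
    push Not at hry
    have hrk : r ∣ k := hrG.trans hGk
    have hrf : r ∣ f k := hrG.trans hGf
    have hfac := Nat.multiplicative_factorization f hf.mul hf.one (n := k) (by omega)
    rw [Finsupp.prod] at hfac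
    rw [hfac, hr.prime.dvd_finsetProd_iff] at hrf
    obtain ⟨q, hq, hrq⟩ := hrf
    rw [Nat.support_factorization] at hq
    have hqp := Nat.prime_of_mem_primeFactors hq
    have hqk := Nat.dvd_of_mem_primeFactors hq
    obtain ⟨a, ha⟩ : ∃ a, a = k.factorization q := ⟨_, rfl⟩
    rw [← ha] at hrq
    have ha1 : 1 ≤ a := by
      rw [ha]
      exact (hqp.dvd_iff_one_le_factorization (by omega)).1 hqk
    have hqa : q ^ a ∣ k := by rw [ha]; exact Nat.ordProj_dvd k q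
    have hq1 : 1 ≤ q := hqp.one_lt.le
    have hpos : 1 ≤ f (q ^ a) := hf.pos _ (Nat.one_le_pow _ _ hq1)
    have hle : r ≤ f (q ^ a) := Nat.le_of_dvd hpos hrq
    have hKq := hK (q ^ a) (Nat.one_le_pow _ _ hq1)
    rcases Nat.lt_or_ge 1 a with ha2 | ha2
    · -- powers
      apply h1
      obtain ⟨b, hb⟩ : ∃ b, b = a / 2 := ⟨_, rfl⟩
      refine ⟨q ^ b, ?_, ?_⟩
      · by_contra hc'
        push Not at hc'
        have e1 : q ^ a ≤ s ^ 3 := by
          calc q ^ a ≤ q ^ (b * 3) := Nat.pow_le_pow_right hq1 (by omega)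
            _ = (q ^ b) ^ 3 := by rw [pow_mul]
            _ ≤ s ^ 3 := Nat.pow_le_pow_left hc' 3
        have e2 : K * (q ^ a) ^ D ≤ K * (s ^ 3) ^ D := Nat.mul_le_mul_left _ (Nat.pow_le_pow_left e1 D)
        omega
      · refine Dvd.dvd.trans ?_ (hqa.trans hkm)
        rw [← pow_mul]
        exact pow_dvd_pow q (by omega)
    · have ha' : a = 1 := by omega
      rw [ha', pow_one] at hrq hle hKq hpos
      rcases Nat.lt_or_ge q P with hqP | hqP
      · have e1 : K * q ^ D ≤ K * P ^ D := Nat.mul_le_mul_left _ (Nat.pow_le_pow_left hqP.le D)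
        omega
      · have e1 := hP q hqP hqp
        apply h2
        refine ⟨r, q, hry, ?_, ?_, ?_⟩
        · rw [← e1]
          exact_mod_cast hpos
        · rw [← e1]
          exact_mod_cast hrq
        · have hne : r ≠ q := by
            rintro rfl
            have e2 : (r : ℤ) ∣ r + c := by rw [← e1]; exact_mod_cast hrq
            have e3 : (r : ℤ) ∣ c := (dvd_add_right (dvd_refl _)).1 e2
            have e4 := Int.le_of_dvd (Int.natAbs_pos.2 hc |> fun h => (by exact_mod_cast h : (0 : ℤ) < c.natAbs))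
              (Int.dvd_natAbs.2 e3)
            have : r ≤ c.natAbs := by exact_mod_cast e4
            omega
          exact (Nat.Coprime.mul_dvd_of_dvd_of_dvd ((Nat.coprime_primes hr hqp).2 hne) hrk hqk).trans hkm
  -- a smooth divisor of m
  have hcop : Nat.Coprime G (rp y m) := by
    rw [Nat.coprime_iff_gcd_eq_one]
    by_contra hne
    obtain ⟨r, hr, hrd⟩ := Nat.exists_prime_and_dvd hne
    have e1 := hsm r hr (hrd.trans (Nat.gcd_dvd_left _ _))
    have e2 := lt_of_dvd_rp hr (hrd.trans (Nat.gcd_dvd_right _ _))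
    omega
  have hGm : G ∣ sp y m * rp y m := by
    rw [sp_mul_rp y m hm]
    exact hGk.trans hkm
  rw [← hG]
  exact Nat.le_of_dvd (sp_pos y m) (hcop.dvd_of_dvd_mul_right hGm)

theorem gcd_few {f : ℕ → ℕ} {c : ℤ} (hf : SM f c) (hc : c ≠ 0) (ε : ℝ) (hε : 0 < ε) :
    ∃ C x₀ : ℕ, ∀ x : ℕ, x₀ ≤ x →
      (((Icc 1 x).filter (fun m => ∃ k : ℕ, 1 ≤ k ∧ k ∣ m ∧ Real.log x ^ C < (Nat.gcd k (f k) : ℝ))).card : ℝ) ≤
        ε * x := by
  obtain ⟨P, hP⟩ := hf.prime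
  obtain ⟨K, D, hK⟩ := hf.growth
  obtain ⟨C1, hC10, hC1⟩ := few_large
  obtain ⟨s, hs⟩ := exists_nat_gt (4 / ε)
  obtain ⟨C, hC⟩ := exists_nat_gt (64 / ε)
  have h4e : 0 < 4 / ε := by positivity
  have h64e : 0 < 64 / ε := by positivity
  have hs1 : 1 ≤ s := by
    have : (0 : ℝ) < s := by linarith
    exact_mod_cast this
  have hC0 : (0 : ℝ) < C := by linarith
  obtain ⟨M, hM⟩ : ∃ M : ℕ, M = K * P ^ D + K * (s ^ 3) ^ D + 2 * c.natAbs + 1 := ⟨_, rfl⟩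
  -- log log large
  have hlog := (Real.tendsto_log_atTop.comp (Real.tendsto_log_atTop.comp
    (tendsto_natCast_atTop_atTop (R := ℝ)))).eventually_ge_atTop (C1 + 3)
  rw [eventually_atTop] at hlog
  obtain ⟨n1, hn1⟩ := hlog
  have hlog2 := (Real.tendsto_log_atTop.comp (tendsto_natCast_atTop_atTop (R := ℝ))).eventually_ge_atTop
    ((M : ℝ) + 64 / ε + 4)
  rw [eventually_atTop] at hlog2
  obtain ⟨n2, hn2⟩ := hlog2
  refine ⟨C, n1 + n2 + 3, fun x hx => ?_⟩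
  obtain ⟨L, hL⟩ : ∃ L, L = Real.log x := ⟨_, rfl⟩
  have hll : C1 + 3 ≤ Real.log L := by rw [hL]; exact hn1 x (by omega)
  have hLM : (M : ℝ) + 64 / ε + 4 ≤ L := by rw [hL]; exact hn2 x (by omega)
  have hM0 : (0 : ℝ) ≤ M := Nat.cast_nonneg _
  have hL4 : 4 ≤ L := by linarith
  have hL0 : 0 < L := by linarith
  have hx0 : (0 : ℝ) < x := by exact_mod_cast (by omega : 0 < x)
  obtain ⟨y, hy⟩ : ∃ y : ℕ, y = ⌈L ^ 2⌉₊ := ⟨_, rfl⟩
  have hy1 : L ^ 2 ≤ y := by rw [hy]; exact Nat.le_ceil _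
  have hy2 : (y : ℝ) ≤ L ^ 2 + 1 := by rw [hy]; exact (Nat.ceil_lt_add_one (by positivity)).le
  have hyM : M ≤ y := by
    have : (M : ℝ) ≤ y := by nlinarith
    exact_mod_cast this
  have hy3 : 1 ≤ y := by omega
  have hlogy : Real.log y ≤ 3 * Real.log L := by
    have e1 : (y : ℝ) ≤ L ^ 3 := by nlinarith
    have e2 : Real.log y ≤ Real.log (L ^ 3) := Real.log_le_log (by exact_mod_cast hy3) e1
    rw [Real.log_pow] at e2
    push_cast at e2
    exact e2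
  -- the three sets
  obtain ⟨S1, hS1⟩ : ∃ S1 : Finset ℕ, S1 = (Icc 1 x).filter (fun m => L ^ C < (sp y m : ℝ)) := ⟨_, rfl⟩
  obtain ⟨S2, hS2⟩ : ∃ S2 : Finset ℕ, S2 = (Icc 1 x).filter (fun m => ∃ r p : ℕ, y < r ∧ 0 < (p : ℤ) + c ∧
    (r : ℤ) ∣ p + c ∧ r * p ∣ m) := ⟨_, rfl⟩
  obtain ⟨S3, hS3⟩ : ∃ S3 : Finset ℕ, S3 = (Icc 1 x).filter (fun m => ∃ t : ℕ, s < t ∧ t ^ 2 ∣ m) := ⟨_, rfl⟩
  have hsub : (Icc 1 x).filter (fun m => ∃ k : ℕ, 1 ≤ k ∧ k ∣ m ∧ L ^ C < (Nat.gcd k (f k) : ℝ)) ⊆ S1 ∪ (S2 ∪ S3) := by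
    intro m hm
    rw [mem_filter] at hm
    obtain ⟨hmx, k, hk, hkm, hg⟩ := hm
    have hm1 := (mem_Icc.1 hmx).1
    rw [mem_union, mem_union]
    by_contra hcon
    push Not at hcon
    obtain ⟨g1, g2, g3⟩ := hcon
    rw [hS1, mem_filter] at g1
    rw [hS2, mem_filter] at g2
    rw [hS3, mem_filter] at g3
    have h1 := gcd_le hf hc hP hK (y := y) (s := s) (m := m) (k := k) (by omega) (by omega) (by omega) hk hkm (by omega)
      (fun h => g3 ⟨hmx, h⟩) (fun h => g2 ⟨hmx, h⟩)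
    apply g1
    refine ⟨hmx, lt_of_lt_of_le hg ?_⟩
    exact_mod_cast h1
  have hc1 : (S1.card : ℝ) ≤ ε / 4 * x := by
    have hY : 1 < L ^ C := one_lt_pow₀ (by linarith) (by
      intro h0
      rw [h0, Nat.cast_zero] at hC0
      exact lt_irrefl 0 hC0)
    have h1 := hC1 x y (L ^ C) hy3 hY
    rw [hS1]
    refine h1.trans ?_
    have hll0 : 0 < Real.log L := by linarith
    rw [Real.log_pow, div_le_iff₀ (by positivity)]
    have h2 : Real.log y + C1 ≤ 4 * Real.log L := by linarith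
    have h3 : 2 * (x : ℝ) * (Real.log y + C1) ≤ 2 * x * (4 * Real.log L) := mul_le_mul_of_nonneg_left h2 (by positivity)
    have h4 : 64 ≤ ε * C := by
      rw [div_lt_iff₀ hε] at hC
      linarith
    have h5 : 0 < x * Real.log L := by positivity
    nlinarith
  have hc2 : (S2.card : ℝ) ≤ ε / 4 * x := by
    have h1 := few_rp x y c (by omega)
    rw [hS2]
    refine h1.trans ?_
    rw [Real.log_mul (by norm_num) hx0.ne', ← hL]
    have h2 := Real.log_two_lt_d9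
    have h3 : 1 + (Real.log 2 + L) ≤ 2 * L := by linarith
    have h4 : 2 * (x : ℝ) * (1 + (Real.log 2 + L)) / y ≤ 2 * x * (2 * L) / L ^ 2 := by
      apply div_le_div₀ (by positivity) _ (by positivity) hy1
      exact mul_le_mul_of_nonneg_left h3 (by positivity)
    refine h4.trans ?_
    have h5 : 2 * (x : ℝ) * (2 * L) / L ^ 2 = x * (4 / L) := by
      field_simp
      ring
    have h6 : 4 / L ≤ ε / 4 := by
      rw [div_le_div_iff₀ hL0 (by norm_num)]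
      have : 64 / ε ≤ L := by linarith
      rw [div_le_iff₀ hε] at this
      linarith
    rw [h5]
    calc (x : ℝ) * (4 / L) ≤ x * (ε / 4) := mul_le_mul_of_nonneg_left h6 hx0.le
      _ = ε / 4 * x := mul_comm _ _
  have hc3 : (S3.card : ℝ) ≤ ε / 4 * x := by
    have h1 := few_sq x s hs1
    rw [hS3]
    refine h1.trans ?_
    have hs0 : (0 : ℝ) < s := by exact_mod_cast hs1
    rw [div_le_iff₀ hs0]
    rw [div_lt_iff₀ hε] at hs
    nlinarith
  rw [← hL]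
  have h1 : (((Icc 1 x).filter (fun m => ∃ k : ℕ, 1 ≤ k ∧ k ∣ m ∧ L ^ C < (Nat.gcd k (f k) : ℝ))).card : ℝ) ≤
      (S1.card : ℝ) + ((S2.card : ℝ) + S3.card) := by
    have h2 := (card_le_card hsub).trans ((card_union_le _ _).trans (Nat.add_le_add_left (card_union_le _ _) _))
    exact_mod_cast h2
  have : 0 < ε * x := by positivity
  linarith

end Pool.Agent.N733.AQ
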