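import Mathlib
import Pool.Agent.N733.AQ.B
import Pool.Agent.N733.AQ.C

set_option autoImplicit false

/-! Linear combinations of `m` and `f m` (helper733). -/

namespace Pool.Agent.N733.AQ

open Finset Classical Filter Pool.Agent.N733.TG

/-- a multiplicative function of moderate growth -/
structure TM (f : ℕ → ℕ) (c : ℤ) : Prop where
  mul : ∀ m n : ℕ, Nat.Coprime m n → f (m * n) = f m * f n
  pos : ∀ m : ℕ, 1 ≤ m → 1 ≤ f m
  growth : ∃ C : ℕ, ∀ m : ℕ, 1 ≤ m → (f m : ℝ) ≤ m * (1 + Real.log m) ^ C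
  prime : ∃ P : ℕ, ∀ p : ℕ, P ≤ p → p.Prime → (f p : ℤ) = p + c

lemma TM.sm {f : ℕ → ℕ} {c : ℤ} (hf : TM f c) : SM f c := by
  refine ⟨hf.mul, hf.pos, ?_, hf.prime⟩
  obtain ⟨C, hC⟩ := hf.growth
  refine ⟨1, C + 1, fun m hm => ?_⟩
  have h1 := hC m hm
  have hm0 : (0 : ℝ) < m := by exact_mod_cast hm
  have hm1 : (1 : ℝ) ≤ m := by exact_mod_cast hm
  have h2 : 1 + Real.log m ≤ m := by linarith [Real.log_le_sub_one_of_pos hm0]
  have h3 : 0 ≤ Real.log m := Real.log_nonneg hm1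
  have h4 : (f m : ℝ) ≤ m ^ (C + 1) := by
    refine h1.trans ?_
    calc (m : ℝ) * (1 + Real.log m) ^ C ≤ m * (m : ℝ) ^ C :=
          mul_le_mul_of_nonneg_left (pow_le_pow_left₀ (by linarith) h2 C) hm0.le
      _ = m ^ (C + 1) := by ring
  rw [one_mul]
  exact_mod_cast h4

/-- `m` has a prime factor `≥ m ^ τ` -/
def LP (τ : ℝ) (m : ℕ) : Prop := ∃ p : ℕ, p.Prime ∧ p ∣ m ∧ (m : ℝ) ^ τ ≤ p

lemma gcd_lin (α β c : ℤ) (hα : α ≠ 0) (hβ : β ≠ 0) (hc : c ≠ 0) (k f : ℕ) (hk : 1 ≤ k) :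
    Int.gcd (β * c * f) (α * k + β * f) ≤ (α * β * c).natAbs * Nat.gcd k f := by
  obtain ⟨d, hd⟩ : ∃ d, d = Int.gcd (β * c * f) (α * k + β * f) := ⟨_, rfl⟩
  have h1 : (d : ℤ) ∣ β * c * f := by rw [hd]; exact Int.gcd_dvd_left _ _
  have h2 : (d : ℤ) ∣ α * k + β * f := by rw [hd]; exact Int.gcd_dvd_right _ _
  have h3 : (d : ℤ) ∣ (α * β * c) * f := by
    have := Dvd.dvd.mul_left h1 α
    refine this.trans (dvd_of_eq (by ring))
  have h4 : (d : ℤ) ∣ (α * β * c) * k := by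
    have e : (α * β * c) * (k : ℤ) = β * (c * (α * k + β * f)) - β * (β * c * f) := by ring
    rw [e]
    exact dvd_sub (Dvd.dvd.mul_left (Dvd.dvd.mul_left h2 c) β) (Dvd.dvd.mul_left h1 β)
  have h5 : (d : ℤ) ∣ ((Int.gcd ((α * β * c) * k) ((α * β * c) * f) : ℕ) : ℤ) := Int.dvd_coe_gcd h4 h3
  rw [Int.gcd_mul_left, Int.gcd_natCast_natCast] at h5
  have h6 : d ∣ (α * β * c).natAbs * Nat.gcd k f := by exact_mod_cast h5
  rw [← hd]
  apply Nat.le_of_dvd _ h6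
  apply Nat.mul_pos
  · apply Int.natAbs_pos.2
    exact mul_ne_zero (mul_ne_zero hα hβ) hc
  · exact Nat.gcd_pos_of_pos_left _ hk

theorem main {f : ℕ → ℕ} {c : ℤ} (hf : TM f c) (hc : c ≠ 0) (α β : ℤ) (hα : α ≠ 0) (hβ : β ≠ 0)
    (θ : ℝ) (hθ0 : 0 < θ) (hθ1 : θ < 1) (Good : ℕ → Prop) (hE : EBT θ Good) (ρ : ℝ) (hρ : 0 < ρ) (hρθ : ρ ≤ θ) (C₀ : ℕ)
    (ε : ℝ) (hε : 0 < ε) : ∃ N₀ : ℕ, ∀ N : ℕ, N₀ ≤ N →
      (((Icc 1 N).filter (fun m => LP (1 - θ + ρ) m ∧ (m : ℝ) / Real.log m ^ C₀ ≤ ((α * m + β * f m : ℤ) : ℝ) ∧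
        ¬ Good (α * m + β * f m).toNat)).card : ℝ) ≤ ε * N := by
  obtain ⟨P, hP⟩ := hf.prime
  obtain ⟨C', hC'⟩ := hf.growth
  obtain ⟨Cg, xg, hg⟩ := gcd_few hf.sm hc (ε / 4) (by positivity)
  obtain ⟨C, hC⟩ : ∃ C, C = 2 * C' + Cg + C₀ + 3 := ⟨_, rfl⟩
  obtain ⟨s, hs⟩ := exists_nat_gt (4 / ε)
  have h4e : 0 < 4 / ε := by positivity
  have hs1 : 1 ≤ s := by
    have : (0 : ℝ) < s := by linarith
    exact_mod_cast this
  obtain ⟨A, hA⟩ : ∃ A : ℕ → ℤ, A = fun k : ℕ => α * k + β * f k := ⟨_, rfl⟩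
  obtain ⟨B, hB⟩ : ∃ B : ℕ → ℤ, B = fun k : ℕ => β * c * f k := ⟨_, rfl⟩
  obtain ⟨xc, hxc⟩ := count θ hθ0 hθ1 Good hE ρ hρ hρθ C 1 (fun m : ℕ => α * m + β * f m) A B P (by
    intro k p hk hp hpP hpk
    have e1 : f (k * p) = f k * f p := hf.mul k p ((Nat.Prime.coprime_iff_not_dvd hp).2 hpk).symm
    simp only [hA, hB]
    rw [e1]
    push_cast
    rw [hP p hpP hp]
    ring)
  obtain ⟨δ, hδ⟩ : ∃ δ : ℝ, δ = min ρ (1 - θ) := ⟨_, rfl⟩
  have hδ0 : 0 < δ := by rw [hδ]; exact lt_min hρ (by linarith)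
  have hδρ : δ ≤ ρ := by rw [hδ]; exact min_le_left _ _
  have hδθ : δ ≤ 1 - θ := by rw [hδ]; exact min_le_right _ _
  obtain ⟨x1, hx1⟩ := eventually_atTop.1 (Pool.Agent.R460.GS.real_log (2 * C' + C₀ + 3) hδ0
    (4 / ε + |(α : ℝ)| + |(β : ℝ)| + |(β : ℝ)| * |(c : ℝ)| + ((α * β * c).natAbs : ℝ) + s + P + 2))
  obtain ⟨n1, hn1⟩ := exists_nat_ge x1
  refine ⟨xg + xc + n1 + 3, fun N hN => ?_⟩
  obtain ⟨hLb, hLp⟩ := hx1 N (hn1.trans (by exact_mod_cast (by omega : n1 ≤ N)))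
  obtain ⟨L, hL⟩ : ∃ L, L = Real.log N := ⟨_, rfl⟩
  rw [← hL] at hLb hLp
  have q1 : 0 ≤ |(α : ℝ)| := abs_nonneg _
  have q2 : 0 ≤ |(β : ℝ)| := abs_nonneg _
  have q3 : 0 ≤ |(β : ℝ)| * |(c : ℝ)| := by positivity
  have q4 : (0 : ℝ) ≤ ((α * β * c).natAbs : ℝ) := Nat.cast_nonneg _
  have q5 : (0 : ℝ) ≤ s := Nat.cast_nonneg _
  have q6 : (0 : ℝ) ≤ P := Nat.cast_nonneg _
  have hL2 : 2 ≤ L := by linarith
  have hLe : 4 / ε ≤ L := by linarith
  have hL1 : 1 ≤ L := by linarith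
  have hL0 : 0 < L := by linarith
  have hLs : (s : ℝ) < L := by linarith
  have hN1 : (1 : ℝ) ≤ N := by exact_mod_cast (by omega : 1 ≤ N)
  have hN0 : (0 : ℝ) < N := by linarith
  obtain ⟨τ, hτ⟩ : ∃ τ, τ = 1 - θ + ρ := ⟨_, rfl⟩
  have hτ0 : 0 < τ := by rw [hτ]; linarith
  have hτ1 : τ ≤ 1 := by rw [hτ]; linarith
  have hNδ : L ≤ (N : ℝ) ^ δ := by
    refine le_trans ?_ hLp
    calc L = L ^ 1 := (pow_one L).symm
      _ ≤ L ^ (2 * C' + C₀ + 3) := pow_le_pow_right₀ hL1 (by omega)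
  have hNτ : (N : ℝ) ^ (1 - θ) ≤ ((N : ℝ) / L) ^ τ := by
    rw [Real.div_rpow hN0.le hL0.le, le_div_iff₀ (by positivity)]
    calc (N : ℝ) ^ (1 - θ) * L ^ τ ≤ (N : ℝ) ^ (1 - θ) * L := by
          apply mul_le_mul_of_nonneg_left _ (by positivity)
          calc L ^ τ ≤ L ^ (1 : ℝ) := Real.rpow_le_rpow_of_exponent_le hL1 hτ1
            _ = L := Real.rpow_one L
      _ ≤ (N : ℝ) ^ (1 - θ) * (N : ℝ) ^ δ := mul_le_mul_of_nonneg_left hNδ (by positivity)
      _ = (N : ℝ) ^ (1 - θ + δ) := by rw [Real.rpow_add hN0]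
      _ ≤ (N : ℝ) ^ τ := Real.rpow_le_rpow_of_exponent_le hN1 (by rw [hτ]; linarith)
  -- the exceptional sets
  obtain ⟨S0, hS0⟩ : ∃ S0 : Finset ℕ, S0 = Icc 1 ⌊(N : ℝ) / L⌋₊ := ⟨_, rfl⟩
  obtain ⟨S1, hS1⟩ : ∃ S1 : Finset ℕ, S1 = (Icc 1 N).filter (fun m => ∃ t : ℕ, s < t ∧ t ^ 2 ∣ m) := ⟨_, rfl⟩
  obtain ⟨S2, hS2⟩ : ∃ S2 : Finset ℕ, S2 = (Icc 1 N).filter (fun m => ∃ k : ℕ, 1 ≤ k ∧ k ∣ m ∧
    L ^ Cg < (Nat.gcd k (f k) : ℝ)) := ⟨_, rfl⟩
  obtain ⟨S3, hS3⟩ : ∃ S3 : Finset ℕ, S3 = (Icc 1 N).filter (fun m => Adm θ ρ C A B N m ∧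
    ¬ (0 < (α * m + β * f m : ℤ) ∧ Good (α * m + β * f m).toNat)) := ⟨_, rfl⟩
  have hc0 : (S0.card : ℝ) ≤ ε / 4 * N := by
    rw [hS0, Nat.card_Icc, Nat.add_sub_cancel]
    refine (Nat.floor_le (by positivity)).trans ?_
    rw [div_le_iff₀ hL0]
    rw [div_le_iff₀ hε] at hLe
    nlinarith
  have hc1 : (S1.card : ℝ) ≤ ε / 4 * N := by
    rw [hS1]
    refine (few_sq N s hs1).trans ?_
    have hs0 : (0 : ℝ) < s := by exact_mod_cast hs1
    rw [div_le_iff₀ hs0]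
    rw [div_lt_iff₀ hε] at hs
    nlinarith
  have hc2 : (S2.card : ℝ) ≤ ε / 4 * N := by
    rw [hS2, hL]
    exact hg N (by omega)
  have hc3 : (S3.card : ℝ) ≤ ε / 4 * N := by
    have h1 := hxc N (by omega)
    rw [pow_one, ← hL] at h1
    rw [hS3]
    refine le_trans (le_of_eq ?_) (h1.trans ?_)
    · congr 2
    · rw [div_le_iff₀ hL0]
      rw [div_le_iff₀ hε] at hLe
      nlinarith
  have hsub : (Icc 1 N).filter (fun m => LP (1 - θ + ρ) m ∧ (m : ℝ) / Real.log m ^ C₀ ≤ ((α * m + β * f m : ℤ) : ℝ) ∧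
        ¬ Good (α * m + β * f m).toNat) ⊆ S0 ∪ (S1 ∪ (S2 ∪ S3)) := by
    intro m hm
    rw [mem_filter] at hm
    obtain ⟨hmx, ⟨p, hp, hpm, hpτ⟩, hglow, hbad⟩ := hm
    obtain ⟨hm1, hm2⟩ := mem_Icc.1 hmx
    rw [mem_union, mem_union, mem_union]
    by_contra hcon
    push Not at hcon
    obtain ⟨g0, g1, g2, g3⟩ := hcon
    rw [hS0, mem_Icc] at g0
    rw [hS1, mem_filter] at g1
    rw [hS2, mem_filter] at g2
    rw [hS3, mem_filter] at g3
    have hmL : (N : ℝ) / L < m := by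
      by_contra h
      push Not at h
      exact g0 ⟨hm1, Nat.le_floor h⟩
    have hm0 : (0 : ℝ) < m := by exact_mod_cast hm1
    have hmN : (m : ℝ) ≤ N := by exact_mod_cast hm2
    rw [← hτ] at hpτ
    have hpN : (N : ℝ) ^ (1 - θ) ≤ p := by
      calc (N : ℝ) ^ (1 - θ) ≤ ((N : ℝ) / L) ^ τ := hNτ
        _ ≤ (m : ℝ) ^ τ := Real.rpow_le_rpow (by positivity) hmL.le hτ0.le
        _ ≤ p := hpτ
    have hpδ : (N : ℝ) ^ δ ≤ p := (Real.rpow_le_rpow_of_exponent_le hN1 hδθ).trans hpN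
    have hps : s < p := by
      have : (s : ℝ) < p := by linarith
      exact_mod_cast this
    have hp2 : ¬ p ^ 2 ∣ m := fun h => g1 ⟨hmx, p, hps, h⟩
    obtain ⟨k, hk⟩ := hpm
    have hk0 : 1 ≤ k := by
      rcases Nat.eq_zero_or_pos k with h | h
      · rw [h, mul_zero] at hk
        omega
      · exact h
    have hpk : ¬ p ∣ k := by
      rintro ⟨j, rfl⟩
      exact hp2 ⟨j, by rw [hk]; ring⟩
    have hkm : m = k * p := by rw [hk, mul_comm]
    have hkr : (0 : ℝ) < k := by exact_mod_cast hk0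
    have hp0 : (0 : ℝ) < p := by exact_mod_cast hp.pos
    have hkN : k ≤ N := by
      calc k = k * 1 := (mul_one k).symm
        _ ≤ k * p := Nat.mul_le_mul_left k hp.pos
        _ ≤ N := by rw [← hkm]; exact hm2
    have hklog : Real.log k ≤ L := by
      rw [hL]
      exact Real.log_le_log hkr (by exact_mod_cast hkN)
    have hklog0 : 0 ≤ Real.log k := Real.log_nonneg (by exact_mod_cast hk0)
    have hfk : (f k : ℝ) ≤ k * L ^ (2 * C') := by
      refine (hC' k hk0).trans ?_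
      apply mul_le_mul_of_nonneg_left _ hkr.le
      rw [pow_mul]
      apply pow_le_pow_left₀ (by linarith)
      nlinarith
    have hfk0 : (0 : ℝ) ≤ f k := Nat.cast_nonneg _
    have hkth : (k : ℝ) ≤ (N : ℝ) ^ (θ - ρ) := by
      have e1 : (k : ℝ) = m / p := by
        rw [hkm]
        push_cast
        field_simp
      rw [e1]
      calc (m : ℝ) / p ≤ m / (m : ℝ) ^ τ := div_le_div_of_nonneg_left hm0.le (by positivity) hpτ
        _ = (m : ℝ) ^ (1 - τ) := by rw [Real.rpow_sub hm0, Real.rpow_one]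
        _ ≤ (N : ℝ) ^ (1 - τ) := Real.rpow_le_rpow hm0.le hmN (by linarith)
        _ = (N : ℝ) ^ (θ - ρ) := by rw [hτ]; congr 1; ring
    -- powers of the logarithm
    have hpw : ∀ i j : ℕ, i ≤ j → L ^ i ≤ L ^ j := fun i j h => pow_le_pow_right₀ hL1 h
    have hBabs : |((B k : ℤ) : ℝ)| ≤ k * L ^ (2 * C' + 1) := by
      rw [hB]
      push_cast
      rw [abs_mul, abs_mul, abs_of_nonneg hfk0]
      calc |(β : ℝ)| * |(c : ℝ)| * f k ≤ L * (k * L ^ (2 * C')) := by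
            apply mul_le_mul _ hfk hfk0 hL0.le
            linarith
        _ = k * L ^ (2 * C' + 1) := by ring
    have hAabs : ((A k : ℤ) : ℝ) ≤ k * L ^ (2 * C' + 1) := by
      rw [hA]
      push_cast
      have e1 : (α : ℝ) * k ≤ |(α : ℝ)| * (k * L ^ (2 * C')) := by
        have e2 : (1 : ℝ) ≤ L ^ (2 * C') := one_le_pow₀ hL1
        calc (α : ℝ) * k ≤ |(α : ℝ)| * k := mul_le_mul_of_nonneg_right (le_abs_self _) hkr.le
          _ ≤ |(α : ℝ)| * (k * L ^ (2 * C')) := by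
            apply mul_le_mul_of_nonneg_left _ q1
            exact le_mul_of_one_le_right hkr.le e2
      have e3 : (β : ℝ) * f k ≤ |(β : ℝ)| * (k * L ^ (2 * C')) := by
        calc (β : ℝ) * f k ≤ |(β : ℝ)| * f k := mul_le_mul_of_nonneg_right (le_abs_self _) hfk0
          _ ≤ _ := mul_le_mul_of_nonneg_left hfk q2
      have e4 : 0 ≤ (k : ℝ) * L ^ (2 * C') := by positivity
      calc (α : ℝ) * k + β * f k ≤ (|(α : ℝ)| + |(β : ℝ)|) * (k * L ^ (2 * C')) := by linarith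
        _ ≤ L * (k * L ^ (2 * C')) := mul_le_mul_of_nonneg_right (by linarith) e4
        _ = k * L ^ (2 * C' + 1) := by ring
    have hgk : (Nat.gcd k (f k) : ℝ) ≤ L ^ Cg := by
      by_contra h
      push Not at h
      exact g2 ⟨hmx, k, hk0, ⟨p, hkm⟩, h⟩
    have hgcd : (Int.gcd (B k) (A k) : ℝ) ≤ L ^ (Cg + 1) := by
      have e1 : (Int.gcd (B k) (A k) : ℝ) ≤ ((α * β * c).natAbs : ℝ) * Nat.gcd k (f k) := by
        rw [hA, hB]
        exact_mod_cast gcd_lin α β c hα hβ hc k (f k) hk0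
      refine e1.trans ?_
      rw [pow_succ, mul_comm (L ^ Cg)]
      exact mul_le_mul (by linarith) hgk (Nat.cast_nonneg _) hL0.le
    have hpP : P ≤ p := by
      have : (P : ℝ) ≤ p := by linarith
      exact_mod_cast this
    -- the lower bound for A k
    have hAlow : (k : ℝ) / L ^ (C₀ + 1) ≤ A k := by
      · have e0 : (α * m + β * f m : ℤ) = A k * p + B k := by
          have e1 : f (k * p) = f k * f p := hf.mul k p ((Nat.Prime.coprime_iff_not_dvd hp).2 hpk).symm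
          rw [hA, hB, hkm, e1]
          push_cast
          rw [hP p hpP hp]
          ring
        rw [e0] at hglow
        push_cast at hglow
        have e2 : (m : ℝ) / L ^ C₀ ≤ m / Real.log m ^ C₀ := by
          have hlm : Real.log m ≤ L := by
            rw [hL]
            exact Real.log_le_log hm0 hmN
          have hm1' : (1 : ℝ) < m := by
            have h1 : (p : ℝ) ≤ m := by
              rw [hkm]
              push_cast
              have : (1 : ℝ) ≤ k := by exact_mod_cast hk0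
              nlinarith
            have h2 : (2 : ℝ) ≤ p := by exact_mod_cast hp.two_le
            linarith
          have hlm0 : 0 < Real.log m := Real.log_pos hm1'
          exact div_le_div_of_nonneg_left hm0.le (by positivity) (pow_le_pow_left₀ hlm0.le hlm C₀)
        have e3 : (m : ℝ) = k * p := by rw [hkm]; push_cast; ring
        have e4 : (B k : ℝ) ≤ k * L ^ (2 * C' + 1) := (le_abs_self _).trans hBabs
        have e5 : (k : ℝ) * L ^ (2 * C' + 1) ≤ k * p / (2 * L ^ C₀) := by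
          rw [le_div_iff₀ (by positivity)]
          calc (k : ℝ) * L ^ (2 * C' + 1) * (2 * L ^ C₀) = k * (2 * (L ^ (2 * C' + 1) * L ^ C₀)) := by ring
            _ ≤ k * (L * (L ^ (2 * C' + 1) * L ^ C₀)) := by
                apply mul_le_mul_of_nonneg_left _ hkr.le
                exact mul_le_mul_of_nonneg_right hL2 (by positivity)
            _ = k * L ^ (2 * C' + C₀ + 2) := by ring
            _ ≤ k * L ^ (2 * C' + C₀ + 3) := mul_le_mul_of_nonneg_left (hpw _ _ (by omega)) hkr.le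
            _ ≤ k * p := mul_le_mul_of_nonneg_left (hLp.trans hpδ) hkr.le
        have e6 : (k : ℝ) * p / (2 * L ^ C₀) ≤ A k * p := by
          have e7 : (k : ℝ) * p / L ^ C₀ = k * p / (2 * L ^ C₀) + k * p / (2 * L ^ C₀) := by
            field_simp
            ring
          rw [e3] at e2 hglow
          linarith
        have e8 : (k : ℝ) / (2 * L ^ C₀) ≤ A k := by
          have : (k : ℝ) / (2 * L ^ C₀) * p ≤ A k * p := by
            calc (k : ℝ) / (2 * L ^ C₀) * p = k * p / (2 * L ^ C₀) := by ring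
              _ ≤ _ := e6
          exact le_of_mul_le_mul_right this hp0
        refine le_trans ?_ e8
        apply div_le_div_of_nonneg_left hkr.le (by positivity)
        calc 2 * L ^ C₀ ≤ L * L ^ C₀ := mul_le_mul_of_nonneg_right hL2 (by positivity)
          _ = L ^ (C₀ + 1) := by ring
    have hAdm : Adm θ ρ C A B N m := by
      refine ⟨k, p, hkm, hk0, hp, hpk, hkth, hpN, ?_, ?_, ?_, ?_⟩
      · rw [← hL]
        refine le_trans ?_ hAlow
        exact div_le_div_of_nonneg_left hkr.le (by positivity) (hpw _ _ (by omega))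
      · rw [← hL]
        exact hAabs.trans (mul_le_mul_of_nonneg_left (hpw _ _ (by omega)) hkr.le)
      · rw [← hL]
        exact hBabs.trans (mul_le_mul_of_nonneg_left (hpw _ _ (by omega)) hkr.le)
      · rw [← hL]
        exact hgcd.trans (hpw _ _ (by omega))
    exact g3 ⟨hmx, hAdm, fun h => hbad h.2⟩
  have h1 : (((Icc 1 N).filter (fun m => LP (1 - θ + ρ) m ∧ (m : ℝ) / Real.log m ^ C₀ ≤
      ((α * m + β * f m : ℤ) : ℝ) ∧ ¬ Good (α * m + β * f m).toNat)).card : ℝ) ≤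
      (S0.card : ℝ) + ((S1.card : ℝ) + ((S2.card : ℝ) + S3.card)) := by
    have h2 := (card_le_card hsub).trans ((card_union_le _ _).trans (Nat.add_le_add_left ((card_union_le _ _).trans
      (Nat.add_le_add_left (card_union_le _ _) _)) _))
    exact_mod_cast h2
  linarith

end Pool.Agent.N733.AQ
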