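import Mathlib
import Pool.Agent.N733.AQ.D

set_option autoImplicit false

/-! Few integers are smooth; the sum of the proper divisors and the cototient (helper733). -/

namespace Pool.Agent.N733.AQ

open Finset Classical Filter Pool.Agent.N733.TG

lemma sum_log_sq : ∃ C : ℝ, 0 ≤ C ∧ ∀ z : ℕ, ∑ p ∈ PZ z, Real.log p / (p * (p - 1) : ℝ) ≤ C := by
  have hs : Summable (fun n : ℕ => 1 / (n : ℝ) ^ (3 / 2 : ℝ)) := Real.summable_one_div_nat_rpow.2 (by norm_num)
  refine ⟨4 * ∑' n : ℕ, 1 / (n : ℝ) ^ (3 / 2 : ℝ), by positivity, fun z => ?_⟩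
  have h1 : ∀ p ∈ PZ z, Real.log p / (p * (p - 1) : ℝ) ≤ 4 * (1 / (p : ℝ) ^ (3 / 2 : ℝ)) := by
    intro p hp
    rw [PZ, mem_filter, mem_Icc] at hp
    have hp2 : (2 : ℝ) ≤ p := by exact_mod_cast hp.2.two_le
    have hp0 : (0 : ℝ) < p := by linarith
    have h2 : Real.log p ≤ 2 * √(p : ℝ) := by
      have h3 := Real.log_le_sub_one_of_pos (Real.sqrt_pos.2 hp0)
      rw [Real.log_sqrt hp0.le] at h3
      linarith
    have h4 : (p : ℝ) ^ (3 / 2 : ℝ) = p * √(p : ℝ) := by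
      rw [show (3 / 2 : ℝ) = 1 + 1 / 2 by norm_num, Real.rpow_add hp0, Real.rpow_one, Real.sqrt_eq_rpow]
    have h5 : √(p : ℝ) * √(p : ℝ) = p := Real.mul_self_sqrt hp0.le
    have h6 : 0 < √(p : ℝ) := Real.sqrt_pos.2 hp0
    rw [h4, mul_one_div, div_le_div_iff₀ (by nlinarith) (by positivity)]
    calc Real.log p * (p * √(p : ℝ)) ≤ (2 * √(p : ℝ)) * (p * √(p : ℝ)) := mul_le_mul_of_nonneg_right h2 (by positivity)
      _ = 2 * p * (√(p : ℝ) * √(p : ℝ)) := by ring
      _ = 2 * p * p := by rw [h5]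
      _ ≤ 4 * (p * (p - 1)) := by nlinarith
  calc ∑ p ∈ PZ z, Real.log p / (p * (p - 1) : ℝ) ≤ ∑ p ∈ PZ z, 4 * (1 / (p : ℝ) ^ (3 / 2 : ℝ)) := sum_le_sum h1
    _ = 4 * ∑ p ∈ PZ z, (1 / (p : ℝ) ^ (3 / 2 : ℝ)) := by rw [mul_sum]
    _ ≤ _ := by
      apply mul_le_mul_of_nonneg_left _ (by norm_num)
      exact hs.sum_le_tsum _ (fun n _ => by positivity)

lemma sum_log_sp' : ∃ C : ℝ, 0 ≤ C ∧ ∀ N z : ℕ, 1 ≤ z →
    ∑ m ∈ Icc 1 N, Real.log (sp z m) ≤ N * (Real.log z + C) := by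
  obtain ⟨C, hC⟩ := Pool.Agent.Erdos456.Mert.mertens_log
  obtain ⟨C', hC'0, hC'⟩ := sum_log_sq
  refine ⟨|C| + C', by positivity, fun N z hz => ?_⟩
  have h1 : ∑ m ∈ Icc 1 N, Real.log (sp z m) = ∑ p ∈ PZ z, (∑ m ∈ Icc 1 N, (m.factorization p : ℝ)) * Real.log p := by
    simp_rw [log_sp, sum_mul]
    exact sum_comm
  rw [h1]
  have h2 : ∀ p ∈ PZ z, (∑ m ∈ Icc 1 N, (m.factorization p : ℝ)) * Real.log p ≤
      N * (Real.log p / p) + N * (Real.log p / (p * (p - 1) : ℝ)) := by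
    intro p hp
    rw [PZ, mem_filter, mem_Icc] at hp
    have h3 := sum_fact N p hp.2
    have hp2 := hp.2.two_le
    have hp2' : (2 : ℝ) ≤ p := by exact_mod_cast hp2
    have hp0 : (0 : ℝ) < p := by linarith
    have hp1 : (0 : ℝ) < p - 1 := by linarith
    have h4 : (∑ m ∈ Icc 1 N, (m.factorization p : ℝ)) ≤ N / ((p : ℝ) - 1) := by
      have : (((∑ m ∈ Icc 1 N, m.factorization p) * (p - 1) : ℕ) : ℝ) ≤ N := by exact_mod_cast h3
      rw [Nat.cast_mul, Nat.cast_sub (by omega)] at this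
      push_cast at this
      rw [le_div_iff₀ hp1]
      exact this
    have hl : 0 ≤ Real.log p := Real.log_nonneg (by linarith)
    refine (mul_le_mul_of_nonneg_right h4 hl).trans (le_of_eq ?_)
    field_simp
    ring
  refine (sum_le_sum h2).trans ?_
  rw [sum_add_distrib, ← mul_sum, ← mul_sum]
  have h6 := hC z hz
  have h7 : ∑ p ∈ PZ z, Real.log p / p ≤ Real.log z + |C| := by
    have := (abs_le.1 h6).2
    unfold PZ
    linarith [le_abs_self C]
  have hN : (0 : ℝ) ≤ N := Nat.cast_nonneg _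
  have h8 := mul_le_mul_of_nonneg_left h7 hN
  have h9 := mul_le_mul_of_nonneg_left (hC' z) hN
  linarith

lemma sp_eq_self {z m : ℕ} (hm : m ≠ 0) (h : ∀ p : ℕ, p.Prime → p ∣ m → p ≤ z) : sp z m = m := by
  have h1 : rp z m = 1 := by
    by_contra hne
    obtain ⟨p, hp, hpd⟩ := Nat.exists_prime_and_dvd hne
    have h2 := lt_of_dvd_rp hp hpd
    have h3 : p ∣ m := by
      rw [← sp_mul_rp z m hm]
      exact Dvd.dvd.mul_left hpd _
    have := h p hp h3
    omega
  have h2 := sp_mul_rp z m hm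
  rw [h1, mul_one] at h2
  exact h2

/-- few integers are smooth -/
lemma few_smooth (τ η : ℝ) (hτ : 0 < τ) (hη : 0 < η) : ∃ M₀ : ℕ, ∀ M : ℕ, M₀ ≤ M →
    (((Icc 1 M).filter (fun m : ℕ => ∀ p : ℕ, p.Prime → p ∣ m → (p : ℝ) ≤ ((2 * M : ℕ) : ℝ) ^ τ)).card : ℝ) ≤ (τ + η) * M := by
  obtain ⟨C, hC0, hC⟩ := sum_log_sp'
  -- log M - log log M and so on
  have t1 : ∀ᶠ t : ℝ in atTop, Real.log t ≤ (η / (4 * (τ + η + 1))) * t := by
    have := Real.isLittleO_log_id_atTop.bound (show 0 < η / (4 * (τ + η + 1)) by positivity)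
    filter_upwards [this, eventually_ge_atTop 1] with t ht h1
    rw [Real.norm_eq_abs, Real.norm_eq_abs, id, abs_of_nonneg (Real.log_nonneg h1), abs_of_nonneg (by linarith)] at ht
    exact ht
  rw [eventually_atTop] at t1
  obtain ⟨T, hT⟩ := t1
  have hlog := (Real.tendsto_log_atTop.comp (tendsto_natCast_atTop_atTop (R := ℝ))).eventually_ge_atTop
    (T ⊔ (4 * (τ + C + 2) / η + 2))
  rw [eventually_atTop] at hlog
  obtain ⟨n1, hn1⟩ := hlog
  refine ⟨n1 + 3, fun M hM => ?_⟩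
  obtain ⟨L, hL⟩ : ∃ L, L = Real.log M := ⟨_, rfl⟩
  have hLb : T ⊔ (4 * (τ + C + 2) / η + 2) ≤ L := by rw [hL]; exact hn1 M (by omega)
  have hLT : T ≤ L := le_trans le_sup_left hLb
  have hLη : 4 * (τ + C + 2) / η + 2 ≤ L := le_trans le_sup_right hLb
  have hpos1 : 0 ≤ 4 * (τ + C + 2) / η := by positivity
  have hL2 : 2 ≤ L := by linarith
  have hL0 : 0 < L := by linarith
  have hll := hT L hLT
  have hM0 : (0 : ℝ) < M := by exact_mod_cast (by omega : 0 < M)
  have hM1 : (1 : ℝ) ≤ M := by exact_mod_cast (by omega : 1 ≤ M)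
  have hηL : 4 * (τ + C + 2) ≤ η * L := by
    have : 4 * (τ + C + 2) / η ≤ L := by linarith
    rw [div_le_iff₀ hη] at this
    linarith
  obtain ⟨z, hz⟩ : ∃ z : ℕ, z = ⌊((2 * M : ℕ) : ℝ) ^ τ⌋₊ := ⟨_, rfl⟩
  have h2M : (1 : ℝ) ≤ ((2 * M : ℕ) : ℝ) := by exact_mod_cast (by omega : 1 ≤ 2 * M)
  have hz1 : 1 ≤ z := by
    rw [hz]
    apply Nat.le_floor
    rw [Nat.cast_one]
    exact Real.one_le_rpow h2M hτ.le
  have hlz : Real.log z ≤ τ * (L + 1) := by
    have e1 : (z : ℝ) ≤ ((2 * M : ℕ) : ℝ) ^ τ := by rw [hz]; exact Nat.floor_le (by positivity)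
    have e2 : Real.log z ≤ Real.log (((2 * M : ℕ) : ℝ) ^ τ) := Real.log_le_log (by exact_mod_cast hz1) e1
    rw [Real.log_rpow (by linarith)] at e2
    refine e2.trans ?_
    apply mul_le_mul_of_nonneg_left _ hτ.le
    push_cast
    rw [Real.log_mul (by norm_num) hM0.ne', ← hL]
    have := Real.log_two_lt_d9
    linarith
  obtain ⟨S, hS⟩ : ∃ S : Finset ℕ, S = (Icc 1 M).filter (fun m : ℕ => ∀ p : ℕ, p.Prime → p ∣ m →
    (p : ℝ) ≤ ((2 * M : ℕ) : ℝ) ^ τ) := ⟨_, rfl⟩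
  obtain ⟨S1, hS1⟩ : ∃ S1 : Finset ℕ, S1 = S.filter (fun m : ℕ => (M : ℝ) / L < m) := ⟨_, rfl⟩
  obtain ⟨S2, hS2⟩ : ∃ S2 : Finset ℕ, S2 = S.filter (fun m : ℕ => ¬ (M : ℝ) / L < m) := ⟨_, rfl⟩
  have hcard : (S.card : ℝ) = S1.card + S2.card := by
    rw [hS1, hS2]
    exact_mod_cast (card_filter_add_card_filter_not _).symm
  have hc2 : (S2.card : ℝ) ≤ M / L := by
    have : S2 ⊆ Icc 1 ⌊(M : ℝ) / L⌋₊ := by
      intro m hm
      rw [hS2, mem_filter, hS, mem_filter, mem_Icc] at hm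
      rw [mem_Icc]
      exact ⟨hm.1.1.1, Nat.le_floor (not_lt.1 hm.2)⟩
    have := card_le_card this
    rw [Nat.card_Icc, Nat.add_sub_cancel] at this
    calc (S2.card : ℝ) ≤ (⌊(M : ℝ) / L⌋₊ : ℝ) := by exact_mod_cast this
      _ ≤ M / L := Nat.floor_le (by positivity)
  have hc1 : (S1.card : ℝ) * (L - Real.log L) ≤ M * (Real.log z + C) := by
    refine le_trans ?_ (hC M z hz1)
    rw [← nsmul_eq_mul]
    refine le_trans (card_nsmul_le_sum _ (fun m => Real.log (sp z m)) _ ?_) ?_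
    · intro m hm
      rw [hS1, mem_filter, hS, mem_filter, mem_Icc] at hm
      obtain ⟨⟨⟨h1, h2⟩, h3⟩, h4⟩ := hm
      rw [sp_eq_self (by omega) (fun p hp hpm => by
        rw [hz]
        exact Nat.le_floor (h3 p hp hpm))]
      have e1 : Real.log ((M : ℝ) / L) ≤ Real.log m := Real.log_le_log (by positivity) h4.le
      rw [Real.log_div hM0.ne' hL0.ne', ← hL] at e1
      exact e1
    · apply sum_le_sum_of_subset_of_nonneg
      · intro m hm
        rw [hS1, mem_filter, hS, mem_filter] at hm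
        exact hm.1.1
      · intro m _ _
        exact Real.log_nonneg (by exact_mod_cast sp_pos z m)
  rw [← hS, hcard]
  -- S1 * L ≤ M (τ L + τ + C) + S1 * log L
  have hS1M : (S1.card : ℝ) ≤ M := by
    have : S1.card ≤ (Icc 1 M).card := by
      apply card_le_card
      intro m hm
      rw [hS1, mem_filter, hS, mem_filter] at hm
      exact hm.1.1
    rw [Nat.card_Icc, Nat.add_sub_cancel] at this
    exact_mod_cast this
  have hc3 : Real.log L ≤ η / 4 * L := by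
    refine hll.trans ?_
    apply mul_le_mul_of_nonneg_right _ hL0.le
    apply div_le_div_of_nonneg_left hη.le (by norm_num)
    nlinarith
  have hll0 : 0 ≤ Real.log L := Real.log_nonneg (by linarith)
  have e1 : (S1.card : ℝ) * L ≤ M * (τ * (L + 1) + C) + M * (η / 4 * L) := by
    have a1 : M * (Real.log z + C) ≤ M * (τ * (L + 1) + C) := mul_le_mul_of_nonneg_left (by linarith) hM0.le
    have a2 : (S1.card : ℝ) * Real.log L ≤ M * (η / 4 * L) := mul_le_mul hS1M hc3 hll0 hM0.le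
    nlinarith
  have e2 : (S2.card : ℝ) * L ≤ M := by rwa [le_div_iff₀ hL0] at hc2
  have e3 : ((S1.card : ℝ) + S2.card) * L ≤ ((τ + η) * M) * L := by
    have a3 : M * (τ + C + 1) ≤ M * (η / 4 * L) := mul_le_mul_of_nonneg_left (by linarith) hM0.le
    nlinarith
  exact le_of_mul_le_mul_right e3 hL0

theorem tm_sigma : TM (fun m => ∑ d ∈ m.divisors, d) 1 where
  mul := fun m n h => by
    have := ArithmeticFunction.isMultiplicative_sigma (k := 1).map_mul_of_coprime h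
    simpa [ArithmeticFunction.sigma_one_apply] using this
  pos := fun m hm => by
    calc 1 ≤ m := hm
      _ ≤ ∑ d ∈ m.divisors, d := single_le_sum (f := fun d => d) (fun _ _ => Nat.zero_le _)
        (Nat.mem_divisors_self m (by omega))
  growth := ⟨1, fun m hm => by
    have hm0 : (0 : ℝ) < m := by exact_mod_cast hm
    rw [pow_one]
    have h1 : ((∑ d ∈ m.divisors, d : ℕ) : ℝ) = ∑ d ∈ m.divisors, (m : ℝ) * (1 / d) := by
      rw [← Nat.sum_div_divisors m (fun d => d)]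
      push_cast
      apply sum_congr rfl
      intro d hd
      have hdm := Nat.dvd_of_mem_divisors hd
      rw [Nat.cast_div hdm (by
        have := Nat.pos_of_mem_divisors hd
        exact_mod_cast this.ne')]
      ring
    rw [h1, ← mul_sum]
    apply mul_le_mul_of_nonneg_left _ hm0.le
    refine le_trans ?_ (harm m)
    apply sum_le_sum_of_subset_of_nonneg
    · intro d hd
      rw [mem_Icc]
      exact ⟨Nat.pos_of_mem_divisors hd, Nat.divisor_le hd⟩
    · intro d _ _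
      positivity⟩
  prime := ⟨0, fun p _ hp => by
    rw [Nat.Prime.sum_divisors hp]
    push_cast
    ring⟩

theorem tm_totient : TM Nat.totient (-1) where
  mul := fun m n h => Nat.totient_mul h
  pos := fun m hm => Nat.totient_pos.2 hm
  growth := ⟨0, fun m _ => by
    rw [pow_zero, mul_one]
    exact_mod_cast Nat.totient_le m⟩
  prime := ⟨0, fun p _ hp => by
    rw [Nat.totient_prime hp]
    have := hp.pos
    omega⟩

lemma totient_two_mul_le (k : ℕ) : Nat.totient (2 * k) ≤ k := by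
  induction k using Nat.strong_induction_on with
  | _ k ih =>
    rcases Nat.even_or_odd k with h | h
    · rw [Nat.totient_two_mul_of_even h]
      rcases Nat.eq_zero_or_pos k with h0 | h0
      · simp [h0]
      · obtain ⟨j, hj⟩ := h
        have h1 := ih j (by omega)
        rw [hj, ← two_mul]
        omega
    · rw [Nat.totient_two_mul_of_odd h]
      exact Nat.totient_le k

/-- the sum of the proper divisors of an even integer -/
lemma aliquot_ge (k : ℕ) (hk : 1 ≤ k) : 3 * k ≤ ∑ d ∈ (2 * k).divisors, d := by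
  have h1 : ({k, 2 * k} : Finset ℕ) ⊆ (2 * k).divisors := by
    intro d hd
    rw [mem_insert, mem_singleton] at hd
    rw [Nat.mem_divisors]
    rcases hd with rfl | rfl
    · exact ⟨Dvd.intro_left 2 rfl, by omega⟩
    · exact ⟨dvd_refl _, by omega⟩
  calc 3 * k = ∑ d ∈ ({k, 2 * k} : Finset ℕ), d := by
        rw [sum_pair (by omega)]
        ring
    _ ≤ _ := sum_le_sum_of_subset h1

/-- the sum of the divisors of `k p` is even -/
lemma sigma_even {m p : ℕ} (hp : p.Prime) (h2 : p ≠ 2) (hpm : p ∣ m) (hp2 : ¬ p ^ 2 ∣ m) :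
    2 ∣ ∑ d ∈ m.divisors, d := by
  obtain ⟨k, hk⟩ := hpm
  have hpk : ¬ p ∣ k := by
    rintro ⟨j, rfl⟩
    exact hp2 ⟨j, by rw [hk]; ring⟩
  have h1 := tm_sigma.mul p k ((Nat.Prime.coprime_iff_not_dvd hp).2 hpk)
  rw [hk, h1]
  apply Dvd.dvd.mul_right
  rw [Nat.Prime.sum_divisors hp]
  obtain ⟨j, hj⟩ := hp.odd_of_ne_two h2
  omega

end Pool.Agent.N733.AQ
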